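import Mathlib
import Pool.Agent.Lib.MP_6a62cd_co.FourDefs
import Pool.Agent.Lib.MP_03175e_co.Defs
import Pool.Agent.Lib.MP_03175e_co.D04
import Pool.Agent.Lib.MP_03175e_co.E01
import Pool.Agent.Lib.MP_03175e_co.E02
import Pool.Agent.Lib.MP_03175e_co.P01

/-!
Every planar graph of girth at least six is PCF (degree+2)-choosable.
-/

namespace Pool.Agent.Results.MP_03175e_co.PlanarGirthSix

open Pool.Agent.Lib.MP_03175e_co
open Pool.Agent.Lib.MP_6a62cd_co.Four

open Classical in
theorem sum_eq_dartsOn {V : Type} [Fintype V] (G : SimpleGraph V) (S : Finset V) :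
    ∑ v ∈ S, (nb G v ∩ S).card = dartsOn G S := by
  unfold dartsOn
  rw [Finset.card_filter, Finset.sum_product]
  refine Finset.sum_congr rfl fun v _ => ?_
  rw [← Finset.card_filter]
  congr 1
  ext w
  simp only [Finset.mem_filter, Finset.mem_inter, nb, Finset.mem_univ, true_and]
  tauto

/-- Every finite graph of girth at least 6 in which every nonempty set `S` of vertices spans fewer
than `3 |S| / 2` edges is PCF (degree+2)-choosable. -/
theorem sparse_choosable {V : Type} [Finite V] {G : SimpleGraph V} (hg : 6 ≤ G.egirth)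
    (hd : ∀ S : Finset V, S.Nonempty → dartsOn G S < 3 * S.card) : PCFDegreeChoosable G 2 := by
  have := Fintype.ofFinite V
  refine PCFDegreeChoosable.of_nat fun L hL => ?_
  obtain ⟨φ, hφ⟩ := main_sparse (NoShort.of_egirth hg)
    (fun S hS => by
      have h1 := hd S hS
      rw [← sum_eq_dartsOn] at h1
      exact h1) L
    (fun v => by rw [hL v, dg_eq_ncard])
  exact ⟨φ, IsPCF.of_good hφ⟩

/-- **Main theorem.** Every finite planar graph of girth at least `6` is PCF
(degree+2)-choosable. -/
theorem result :
    ∀ (V : Type) [Finite V] (G : SimpleGraph V), IsPlanar G → 6 ≤ G.egirth →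
      PCFDegreeChoosable G 2 := by
  intro V _ G hG hg
  have := Fintype.ofFinite V
  refine sparse_choosable hg fun S hS => ?_
  have := plane_sparse6 hG (NoShort.of_egirth hg) S hS
  omega

end Pool.Agent.Results.MP_03175e_co.PlanarGirthSix
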